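import Pool.Agent.Lib.Helper54.BestApproxSharp2

set_option autoImplicit false

namespace Pool.Agent.Lib.Helper54.Old.EuclideanNorms

/-- Lagarias' question for Euclidean norms (norms satisfying the parallelogram law): the double
infimum over all such norms and all admissible vectors is exactly the real root `φ` of
`t ^ 3 = t + 1`. The format is that of the frozen statement, with the parallelogram law added
in both halves. -/
theorem result :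
    ∀ φ : ℝ, φ ^ 3 = φ + 1 →
      (∀ N : (Fin 2 → ℝ) → ℝ,
        (∀ x, N x = 0 → x = 0) →
        (∀ x y, N (x + y) ≤ N x + N y) →
        (∀ (r : ℝ) (x : Fin 2 → ℝ), N (r • x) = |r| * N x) →
        (∀ x y, N (x + y) ^ 2 + N (x - y) ^ 2 = 2 * N x ^ 2 + 2 * N y ^ 2) →
        ∀ θ : Fin 2 → ℝ,
          (∀ q : ℤ, q ≠ 0 → ¬ ∀ i : Fin 2, ∃ a : ℤ, (q : ℝ) * θ i = (a : ℝ)) →
          ∀ c : ℝ, 0 < c → c < φ →
            ∀ᶠ ν in Filter.atTop,
              c ^ ν < ((Nat.nth (fun k : ℕ => 0 < k ∧ ∀ j : ℕ, 0 < j → j < k →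
                  (⨅ a : Fin 2 → ℤ, N (fun i => (k : ℝ) * θ i - ((a i : ℤ) : ℝ))) <
                  (⨅ a : Fin 2 → ℤ, N (fun i => (j : ℝ) * θ i - ((a i : ℤ) : ℝ)))) ν : ℕ) : ℝ))
      ∧
      (∀ ε : ℝ, 0 < ε →
        ∃ N : (Fin 2 → ℝ) → ℝ,
          (∀ x, N x = 0 → x = 0) ∧
          (∀ x y, N (x + y) ≤ N x + N y) ∧
          (∀ (r : ℝ) (x : Fin 2 → ℝ), N (r • x) = |r| * N x) ∧
          (∀ x y, N (x + y) ^ 2 + N (x - y) ^ 2 = 2 * N x ^ 2 + 2 * N y ^ 2) ∧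
          ∃ θ : Fin 2 → ℝ,
            (∀ q : ℤ, q ≠ 0 → ¬ ∀ i : Fin 2, ∃ a : ℤ, (q : ℝ) * θ i = (a : ℝ)) ∧
            ∃ c : ℝ, 0 < c ∧ c < φ + ε ∧
              ∀ᶠ ν in Filter.atTop,
                ((Nat.nth (fun k : ℕ => 0 < k ∧ ∀ j : ℕ, 0 < j → j < k →
                    (⨅ a : Fin 2 → ℤ, N (fun i => (k : ℝ) * θ i - ((a i : ℤ) : ℝ))) <
                    (⨅ a : Fin 2 → ℤ, N (fun i => (j : ℝ) * θ i - ((a i : ℤ) : ℝ)))) ν : ℕ) : ℝ)
                  < c ^ ν) := by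
  intro φ hφ
  refine ⟨?_, ?_⟩
  · intro N h0 htri hhom hpar θ hθ c hc hcφ
    exact Pool.Agent.Helper54.euclid_growth ⟨h0, htri, hhom⟩ hpar hθ φ hφ c hc hcφ
  · intro ε hε
    have hN := Pool.Agent.Helper54.eN_norm hφ
    obtain ⟨c, hc, hcε, hev⟩ := Pool.Agent.Helper54.sharp hφ ε hε
    exact ⟨Pool.Agent.Helper54.eN φ, hN.eq_zero, hN.tri, hN.hom,
      Pool.Agent.Helper54.eN_par hφ, Pool.Agent.Helper54.eθ φ,
      Pool.Agent.Helper54.eθ_adm hφ, c, hc, hcε, hev⟩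

end Pool.Agent.Lib.Helper54.Old.EuclideanNorms
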